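import Pool.Agent.Y234.GS.StmB

/-!
# Project GS: from the separability element to the trace frame (S_TRF)

The trace of `L` over the field generated by the linear forms `θ l`.  It preserves degrees, because
the minimal polynomial of a homogeneous element is homogeneous (uniqueness); the trace identity
follows from the embeddings into an algebraic closure.
-/

set_option autoImplicit false

namespace Pool.Agent.Y758.GS

open MvPolynomial TensorProduct Pool.Agent.Y234.GS

section model

variable {K L ι : Type} [Field K] [Field L] [Algebra K L] [Fintype ι]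

theorem mem_pow_of_hom {x : ι → L} {e : ℕ} {G : MvPolynomial ι K} (hG : G.IsHomogeneous e) :
    aeval x G ∈ (VV K x) ^ e := by
  classical
  rw [MvPolynomial.aeval_def, MvPolynomial.eval₂_eq']
  refine Submodule.sum_mem _ fun d hd => ?_
  rw [← Algebra.smul_def]
  refine Submodule.smul_mem _ _ ?_
  have h1 : ∑ i, d i = e := by
    have h2 := hG (MvPolynomial.mem_support_iff.1 hd)
    rw [← h2, Finsupp.weight_apply, Finsupp.sum_fintype]
    · simp
    · simp
  rw [← h1]
  have h3 : ∀ s : Finset ι, ∏ i ∈ s, x i ^ d i ∈ (VV K x) ^ (∑ i ∈ s, d i) := by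
    intro s
    induction s using Finset.induction_on with
    | empty => simp [Submodule.one_eq_range]
    | insert a s ha ih =>
      rw [Finset.prod_insert ha, Finset.sum_insert ha, pow_add]
      exact Submodule.mul_mem_mul (Submodule.pow_mem_pow _ (Submodule.subset_span (Set.mem_range_self a)) _) ih
  exact h3 _

omit [Fintype ι] in
theorem exists_hom_of_mem {x : ι → L} {e : ℕ} {z : L} (hz : z ∈ (VV K x) ^ e) :
    ∃ G : MvPolynomial ι K, G.IsHomogeneous e ∧ aeval x G = z := by
  induction e generalizing z with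
  | zero =>
    rw [pow_zero, Submodule.mem_one] at hz
    obtain ⟨c, rfl⟩ := hz
    exact ⟨C c, isHomogeneous_C _ _, by simp⟩
  | succ e ih =>
    rw [pow_succ] at hz
    induction hz using Submodule.mul_induction_on' with
    | mem_mul_mem a ha b hb =>
      obtain ⟨A, hA, rfl⟩ := ih ha
      have : ∃ B : MvPolynomial ι K, B.IsHomogeneous 1 ∧ aeval x B = b := by
        induction hb using Submodule.span_induction with
        | mem b hb =>
          obtain ⟨i, rfl⟩ := hb
          exact ⟨X i, isHomogeneous_X _ _, by simp⟩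
        | zero => exact ⟨0, isHomogeneous_zero _ _ _, by simp⟩
        | add a b _ _ ha hb =>
          obtain ⟨A, hA, rfl⟩ := ha
          obtain ⟨B, hB, rfl⟩ := hb
          exact ⟨A + B, hA.add hB, by simp⟩
        | smul c a _ ha =>
          obtain ⟨A, hA, rfl⟩ := ha
          exact ⟨c • A, by
            rw [MvPolynomial.smul_eq_C_mul]
            simpa using (isHomogeneous_C ι c).mul hA, by simp⟩
      obtain ⟨B, hB, rfl⟩ := this
      exact ⟨A * B, hA.mul hB, by simp⟩
    | add a _ b _ ha hb =>
      obtain ⟨A, hA, rfl⟩ := ha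
      obtain ⟨B, hB, rfl⟩ := hb
      exact ⟨A + B, hA.add hB, by simp⟩

/-- The elements `x i` are integral over the polynomial ring. -/
theorem isIntegral_x {x : ι → L} {D : ℕ} {θ : Fin D → L} (hc : Cover (VV K x) θ) (i : ι) :
    IsIntegral (Algebra.adjoin K (Set.range θ)) (x i) := by
  classical
  obtain ⟨N, hN⟩ := hc
  let P := Algebra.adjoin K (Set.range θ)
  let M : Submodule P L := Submodule.span P {a | ∃ e ≤ N, a ∈ (VV K x) ^ e}
  have hW : (VV K x).FG := Submodule.fg_span (Set.finite_range x)
  have hfg : ∀ e : ℕ, ∃ S : Set L, S.Finite ∧ Submodule.span K S = (VV K x) ^ e := fun e =>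
    Submodule.fg_def.1 (hW.pow e)
  choose S hS hSe using hfg
  have hM : M.FG := by
    rw [Submodule.fg_def]
    refine ⟨⋃ e ∈ Finset.range (N + 1), S e, ?_, ?_⟩
    · exact Set.Finite.biUnion (Finset.finite_toSet _) fun e _ => hS e
    · refine le_antisymm ?_ ?_
      · rw [Submodule.span_le]
        intro a ha
        simp only [Set.mem_iUnion, Finset.mem_range] at ha
        obtain ⟨e, he, ha⟩ := ha
        exact Submodule.subset_span ⟨e, by omega, by
          rw [← hSe e]
          exact Submodule.subset_span ha⟩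
      · refine Submodule.span_le.2 ?_
        rintro a ⟨e, he, ha⟩
        rw [← hSe e] at ha
        have h1 : Submodule.span K (S e) ≤
            (Submodule.span P (⋃ e ∈ Finset.range (N + 1), S e)).restrictScalars K := by
          rw [Submodule.span_le]
          intro b hb
          refine Submodule.subset_span ?_
          simp only [Set.mem_iUnion, Finset.mem_range]
          exact ⟨e, by omega, hb⟩
        exact h1 ha
  refine isIntegral_of_smul_mem_submodule M ?_ hM _ ?_
  · intro h0
    have h1 : (1 : L) ∈ M := Submodule.subset_span ⟨0, Nat.zero_le _, by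
      rw [pow_zero]; exact Submodule.one_le.1 le_rfl⟩
    rw [h0, Submodule.mem_bot] at h1
    exact one_ne_zero h1
  · intro m hm
    induction hm using Submodule.span_induction with
    | mem a ha =>
      obtain ⟨e, he, ha⟩ := ha
      have h1 : x i * a ∈ (VV K x) ^ (e + 1) := by
        rw [pow_succ']
        exact Submodule.mul_mem_mul (Submodule.subset_span ⟨i, rfl⟩) ha
      rw [smul_eq_mul]
      rcases Nat.lt_or_ge e N with h2 | h2
      · exact Submodule.subset_span ⟨e + 1, h2, h1⟩
      · obtain rfl : e = N := le_antisymm he h2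
        obtain ⟨r, hr, h3⟩ := hN _ h1
        rw [h3]
        refine Submodule.sum_mem _ fun k _ => ?_
        have h4 : θ k * r k = (⟨θ k, Algebra.subset_adjoin ⟨k, rfl⟩⟩ : P) • r k := rfl
        rw [h4]
        exact Submodule.smul_mem _ _ (Submodule.subset_span ⟨e, le_rfl, hr k⟩)
    | zero => simp
    | add a b _ _ ha hb =>
      rw [smul_add]
      exact M.add_mem ha hb
    | smul c a _ ha =>
      rw [smul_comm]
      exact M.smul_mem _ ha

theorem isIntegral_aeval {x : ι → L} {D : ℕ} {θ : Fin D → L} (hc : Cover (VV K x) θ)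
    (G : MvPolynomial ι K) :
    IsIntegral (Algebra.adjoin K (Set.range θ)) (aeval x G) := by
  have h1 : Algebra.adjoin K (Set.range x) ≤
      (integralClosure (Algebra.adjoin K (Set.range θ)) L).restrictScalars K := by
    refine Algebra.adjoin_le ?_
    rintro _ ⟨i, rfl⟩
    exact isIntegral_x hc i
  have h2 : aeval x G ∈ Algebra.adjoin K (Set.range x) := by
    rw [Algebra.adjoin_range_eq_range_aeval]
    exact ⟨G, rfl⟩
  exact h1 h2

end model

section field

variable {K L ι : Type} [Field K] [Field L] [Algebra K L] [Fintype ι]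

theorem finite_of_model {x : ι → L} (hx : Model K x) {D : ℕ} {θ : Fin D → L}
    (hc : Cover (VV K x) θ) :
    FiniteDimensional (IntermediateField.adjoin K (Set.range θ)) L := by
  let Q := IntermediateField.adjoin K (Set.range θ)
  have h1 : ∀ i, IsIntegral Q (x i) := fun i => by
    have h2 := isIntegral_x hc i
    open scoped IntermediateField.algebraAdjoinAdjoin in
    exact h2.tower_top
  have h3 : IntermediateField.adjoin Q (Set.range x) = ⊤ := by
    rw [eq_top_iff]
    intro a _
    obtain ⟨G, H, hH, hGH⟩ := hx.gen a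
    have h4 : ∀ G : MvPolynomial ι K, aeval x G ∈ IntermediateField.adjoin Q (Set.range x) := by
      intro G
      induction G using MvPolynomial.induction_on with
      | C c =>
        rw [MvPolynomial.aeval_C, IsScalarTower.algebraMap_apply K Q L]
        exact IntermediateField.algebraMap_mem _ _
      | add p q hp hq =>
        rw [map_add]
        exact add_mem hp hq
      | mul_X p i hp =>
        rw [map_mul, aeval_X]
        exact mul_mem hp (IntermediateField.subset_adjoin _ _ (Set.mem_range_self i))
    have h6 : a = aeval x G / aeval x H := by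
      rw [eq_div_iff hH, hGH]
    rw [h6]
    exact div_mem (h4 G) (h4 H)
  have h7 : FiniteDimensional Q (IntermediateField.adjoin Q (Set.range x)) := by
    refine IntermediateField.finiteDimensional_adjoin ?_
    rintro _ ⟨i, rfl⟩
    exact h1 i
  rw [h3] at h7
  exact LinearEquiv.finiteDimensional (IntermediateField.topEquiv (F := Q) (E := L)).toLinearEquiv

omit [Fintype ι] in
/-- Linear maps that raise the degree by `j` commute with homogeneous components. -/
theorem homogeneousComponent_lin {σ : Type} (T : MvPolynomial σ K →ₗ[K] MvPolynomial ι K) (j : ℕ)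
    (hT : ∀ d, ∀ A : MvPolynomial σ K, A.IsHomogeneous d → (T A).IsHomogeneous (d + j)) (k : ℕ)
    (A : MvPolynomial σ K) :
    homogeneousComponent (k + j) (T A) = T (homogeneousComponent k A) := by
  conv_lhs => rw [← sum_homogeneousComponent A]
  rw [map_sum, map_sum]
  have h1 : ∀ d, homogeneousComponent (k + j) (T (homogeneousComponent d A)) =
      if k = d then T (homogeneousComponent d A) else 0 := by
    intro d
    rw [homogeneousComponent_of_mem (hT d _ (homogeneousComponent_isHomogeneous d A))]
    by_cases h : k = d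
    · simp [h]
    · rw [if_neg h, if_neg (by omega)]
  rw [Finset.sum_congr rfl fun d _ => h1 d, Finset.sum_ite_eq]
  split_ifs with h
  · rfl
  · rw [homogeneousComponent_eq_zero, map_zero]
    rw [Finset.mem_range] at h
    omega

omit [Fintype ι] in
/-- The degree part of a relation. -/
theorem relation {x : ι → L} (hx : Model K x) {D : ℕ} {θ : Fin D → L} (hθ : ∀ l, θ l ∈ VV K x)
    {e : ℕ} {z : L} (hz : z ∈ (VV K x) ^ e) (n : ℕ) (A : ℕ → MvPolynomial (Fin D) K)
    (hA : ∑ i ∈ Finset.range (n + 1), aeval θ (A i) * z ^ i = 0) :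
    ∑ i ∈ Finset.range (n + 1), aeval θ (homogeneousComponent ((n - i) * e) (A i)) * z ^ i = 0 := by
  obtain ⟨Z, hZ, rfl⟩ := exists_hom_of_mem hz
  have h1 : ∀ l, ∃ B : MvPolynomial ι K, B.IsHomogeneous 1 ∧ aeval x B = θ l := fun l =>
    exists_hom_of_mem (by rw [pow_one]; exact hθ l)
  choose Θ hΘ hΘx using h1
  have h2 : ∀ B : MvPolynomial (Fin D) K, aeval x (aeval Θ B) = aeval θ B := by
    intro B
    have h3 := MvPolynomial.comp_aeval_apply (f := Θ) (aeval x : MvPolynomial ι K →ₐ[K] L) B
    rw [h3]
    simp only [hΘx]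
  have h3 : aeval x (∑ i ∈ Finset.range (n + 1), aeval Θ (A i) * Z ^ i) = 0 := by
    rw [map_sum, ← hA]
    exact Finset.sum_congr rfl fun i _ => by rw [map_mul, map_pow, h2]
  have h4 := hx.hom _ h3 (n * e)
  rw [map_sum, map_sum] at h4
  rw [← h4]
  refine Finset.sum_congr rfl fun i hi => ?_
  rw [Finset.mem_range] at hi
  let T : MvPolynomial (Fin D) K →ₗ[K] MvPolynomial ι K :=
    (LinearMap.mulRight K (Z ^ i)).comp (aeval Θ : MvPolynomial (Fin D) K →ₐ[K] _).toLinearMap
  have hT : ∀ B, T B = aeval Θ B * Z ^ i := fun B => rfl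
  have h5 : n * e = (n - i) * e + i * e := by
    rw [← add_mul]
    congr 1
    omega
  rw [← hT, h5, homogeneousComponent_lin T (i * e), hT, map_mul, h2, map_pow]
  intro d B hB
  rw [hT]
  refine MvPolynomial.IsHomogeneous.mul ?_ ?_
  · simpa using hB.aeval Θ hΘ
  · simpa [mul_comm] using hZ.pow i

open scoped IntermediateField.algebraAdjoinAdjoin in
/-- The trace preserves degrees. -/
theorem trace_hom {x : ι → L} (hx : Model K x) {D : ℕ} {θ : Fin D → L} (hθ : ∀ l, θ l ∈ VV K x)
    (ha : AlgebraicIndependent K θ) (hc : Cover (VV K x) θ) {e : ℕ} {z : L}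
    (hz : z ∈ (VV K x) ^ e) :
    algebraMap (IntermediateField.adjoin K (Set.range θ)) L
      (Algebra.trace (IntermediateField.adjoin K (Set.range θ)) L z) ∈ (VV K θ) ^ e := by
  have hfin := finite_of_model hx hc
  have hP : IsIntegrallyClosed (Algebra.adjoin K (Set.range θ)) :=
    IsIntegrallyClosed.of_equiv ha.aevalEquiv.toRingEquiv
  have hint : IsIntegral (Algebra.adjoin K (Set.range θ)) z := by
    obtain ⟨Z, -, rfl⟩ := exists_hom_of_mem hz
    exact isIntegral_aeval hc Z
  have hmin := minpoly.isIntegrallyClosed_eq_field_fractions'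
    (IntermediateField.adjoin K (Set.range θ)) hint
  obtain ⟨m, hm⟩ : ∃ m, m = minpoly (Algebra.adjoin K (Set.range θ)) z := ⟨_, rfl⟩
  rw [← hm] at hmin
  have hmon : m.Monic := hm ▸ minpoly.monic hint
  have hz0 : Polynomial.aeval z m = 0 := hm ▸ minpoly.aeval _ z
  have hpos : 0 < m.natDegree := hm ▸ minpoly.natDegree_pos hint
  have h1 : ∀ i, ∃ A : MvPolynomial (Fin D) K, aeval θ A = (m.coeff i : L) := by
    intro i
    have h2 : ∀ u ∈ Algebra.adjoin K (Set.range θ), ∃ A : MvPolynomial (Fin D) K,
        aeval θ A = u := by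
      intro u hu
      rw [Algebra.adjoin_range_eq_range_aeval] at hu
      exact hu
    exact h2 _ (m.coeff i).2
  choose A hA using h1
  have h2 : ∑ i ∈ Finset.range (m.natDegree + 1), aeval θ (A i) * z ^ i = 0 := by
    rw [← hz0, Polynomial.aeval_eq_sum_range]
    exact Finset.sum_congr rfl fun i _ => by rw [hA]; rfl
  have h3 := relation hx hθ hz m.natDegree A h2
  have hmem : ∀ B : MvPolynomial (Fin D) K, aeval θ B ∈ Algebra.adjoin K (Set.range θ) := by
    intro B
    rw [Algebra.adjoin_range_eq_range_aeval]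
    exact ⟨B, rfl⟩
  have hAn : A m.natDegree = 1 := by
    refine ha ?_
    rw [hA, Polynomial.Monic.coeff_natDegree hmon]
    simp
  let r : Polynomial (Algebra.adjoin K (Set.range θ)) := ∑ i ∈ Finset.range m.natDegree,
    Polynomial.C (m.coeff i -
      ⟨aeval θ (homogeneousComponent ((m.natDegree - i) * e) (A i)), hmem _⟩) * Polynomial.X ^ i
  have hr : Polynomial.aeval z r = 0 := by
    have h4 : Polynomial.aeval z r = ∑ i ∈ Finset.range m.natDegree,
        (aeval θ (A i) * z ^ i -
          aeval θ (homogeneousComponent ((m.natDegree - i) * e) (A i)) * z ^ i) := by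
      rw [map_sum]
      refine Finset.sum_congr rfl fun i _ => ?_
      rw [map_mul, map_pow, Polynomial.aeval_X, Polynomial.aeval_C, map_sub, sub_mul, hA]
      rfl
    rw [Finset.sum_range_succ, hAn] at h2 h3
    rw [h4, Finset.sum_sub_distrib]
    simp only [Nat.sub_self, zero_mul, homogeneousComponent_zero, coeff_zero_one, map_one,
      one_mul] at h2 h3
    linear_combination h2 - h3
  have hr0 : r = 0 := by
    by_contra h0
    have h5 := minpoly.IsIntegrallyClosed.degree_le_of_ne_zero h0 hr
    rw [← hm] at h5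
    have h6 : r.degree < m.natDegree := by
      refine (Polynomial.degree_sum_le _ _).trans_lt ?_
      rw [Finset.sup_lt_iff (by exact WithBot.bot_lt_coe _)]
      intro i hi
      refine (Polynomial.degree_C_mul_X_pow_le _ _).trans_lt ?_
      exact_mod_cast Finset.mem_range.1 hi
    rw [Polynomial.degree_eq_natDegree hmon.ne_zero] at h5
    exact absurd (h5.trans_lt h6) (lt_irrefl _)
  have h7 : m.coeff (m.natDegree - 1) =
      ⟨aeval θ (homogeneousComponent ((m.natDegree - (m.natDegree - 1)) * e)
        (A (m.natDegree - 1))), hmem _⟩ := by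
    have h8 : r.coeff (m.natDegree - 1) = 0 := by rw [hr0, Polynomial.coeff_zero]
    rw [Polynomial.finsetSum_coeff] at h8
    simp only [Polynomial.coeff_C_mul, Polynomial.coeff_X_pow] at h8
    rw [Finset.sum_eq_single (m.natDegree - 1)] at h8
    · rw [if_pos rfl, mul_one] at h8
      exact sub_eq_zero.1 h8
    · intro b _ hb
      rw [if_neg (Ne.symm hb), mul_zero]
    · intro hb
      exact absurd (Finset.mem_range.2 (by omega)) hb
  have h9 : ((m.coeff (m.natDegree - 1) : Algebra.adjoin K (Set.range θ)) : L) ∈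
      (VV K θ) ^ e := by
    rw [h7]
    have h10 : m.natDegree - (m.natDegree - 1) = 1 := by omega
    simp only [h10, one_mul]
    exact mem_pow_of_hom (homogeneousComponent_isHomogeneous _ _)
  rw [trace_eq_finrank_mul_minpoly_nextCoeff, hmin,
    Polynomial.nextCoeff_map (FaithfulSMul.algebraMap_injective _ _),
    Polynomial.nextCoeff_of_natDegree_pos hpos, map_mul, map_neg, map_natCast, ← nsmul_eq_mul]
  exact Submodule.smul_of_tower_mem _ _ (Submodule.neg_mem _ h9)

end field

section trace

variable {K L : Type} [Field K] [Field L] [Algebra K L]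

theorem sep_of (Q : IntermediateField K L) [FiniteDimensional Q L] {n : ℕ} {a b : Fin n → L}
    {g : L} (hg : g ≠ 0) (hab : ∑ i, a i * b i = g)
    (h : ∀ z : L, ∑ i, (z * a i) ⊗ₜ[Q] (b i) = ∑ i, (a i) ⊗ₜ[Q] (z * b i)) :
    Algebra.IsSeparable Q L := by
  have h1 : Algebra.FormallyUnramified Q L := by
    rw [Algebra.FormallyUnramified.iff_exists_tensorProduct]
    refine ⟨∑ i, (g⁻¹ * a i) ⊗ₜ[Q] (b i), fun s => ?_, ?_⟩
    · have h2 := congrArg (fun u => (g⁻¹ ⊗ₜ[Q] (1 : L)) * u) (h s)
      simp only [Finset.mul_sum, Algebra.TensorProduct.tmul_mul_tmul, one_mul] at h2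
      simp only [Finset.mul_sum, sub_mul, Algebra.TensorProduct.tmul_mul_tmul, one_mul,
        Finset.sum_sub_distrib]
      rw [← h2, sub_eq_zero]
      exact Finset.sum_congr rfl fun i _ => by rw [mul_left_comm]
    · rw [map_sum]
      simp only [Algebra.TensorProduct.lmul'_apply_tmul]
      rw [← inv_mul_cancel₀ hg, ← hab, Finset.mul_sum]
      exact Finset.sum_congr rfl fun i _ => by rw [mul_assoc, hab]
  exact Algebra.FormallyUnramified.isSeparable Q L

theorem trace_pow (Q : IntermediateField K L) [FiniteDimensional Q L] [Algebra.IsSeparable Q L]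
    (p : ℕ) [Fact p.Prime] [CharP L p] (z : L) :
    algebraMap Q L (Algebra.trace Q L (z ^ p)) = (algebraMap Q L (Algebra.trace Q L z)) ^ p := by
  have hp : CharP (AlgebraicClosure L) p := inferInstance
  apply (algebraMap L (AlgebraicClosure L)).injective
  rw [map_pow (algebraMap L (AlgebraicClosure L)), ← IsScalarTower.algebraMap_apply,
    ← IsScalarTower.algebraMap_apply, trace_eq_sum_embeddings, trace_eq_sum_embeddings,
    sum_pow_char]
  exact Finset.sum_congr rfl fun σ _ => map_pow _ _ _

theorem trace_formula (Q : IntermediateField K L) [FiniteDimensional Q L]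
    [Algebra.IsSeparable Q L] (p : ℕ) [Fact p.Prime] [CharP L p] {n : ℕ} {a b : Fin n → L}
    {g : L} (hab : ∑ i, a i * b i = g)
    (h : ∀ z : L, ∑ i, (z * a i) ⊗ₜ[Q] (b i) = ∑ i, (a i) ⊗ₜ[Q] (z * b i)) (e : ℕ) (z : L) :
    g ^ p ^ e * z =
      ∑ i, a i ^ p ^ e * algebraMap Q L (Algebra.trace Q L (b i ^ p ^ e * z)) := by
  classical
  have hp : CharP (AlgebraicClosure L) p := inferInstance
  let σ0 : L →ₐ[Q] AlgebraicClosure L := IsScalarTower.toAlgHom Q L (AlgebraicClosure L)
  have h1 : ∀ σ : L →ₐ[Q] AlgebraicClosure L, σ ≠ σ0 → ∑ i, σ0 (a i) * σ (b i) = 0 := by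
    intro σ hσ
    obtain ⟨w, hw⟩ : ∃ w, σ w ≠ σ0 w := by
      by_contra hcon
      push Not at hcon
      exact hσ (AlgHom.ext hcon)
    have h2 := congrArg (Algebra.TensorProduct.productMap σ0 σ) (h w)
    rw [map_sum, map_sum] at h2
    simp only [Algebra.TensorProduct.productMap_apply_tmul, map_mul] at h2
    have h3 : (σ0 w - σ w) * ∑ i, σ0 (a i) * σ (b i) = 0 := by
      rw [sub_mul, Finset.mul_sum, Finset.mul_sum, sub_eq_zero]
      calc ∑ i, σ0 w * (σ0 (a i) * σ (b i)) = ∑ i, σ0 w * σ0 (a i) * σ (b i) :=
            Finset.sum_congr rfl fun i _ => by ring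
        _ = ∑ i, σ0 (a i) * (σ w * σ (b i)) := h2
        _ = ∑ i, σ w * (σ0 (a i) * σ (b i)) := Finset.sum_congr rfl fun i _ => by ring
    exact (mul_eq_zero.1 h3).resolve_left (sub_ne_zero.2 (Ne.symm hw))
  apply (algebraMap L (AlgebraicClosure L)).injective
  have h4 : ∀ u : L, algebraMap L (AlgebraicClosure L) u = σ0 u := fun u => rfl
  have h5 : ∀ u : L, algebraMap L (AlgebraicClosure L) (algebraMap Q L (Algebra.trace Q L u)) =
      ∑ σ : L →ₐ[Q] AlgebraicClosure L, σ u := by
    intro u
    rw [← IsScalarTower.algebraMap_apply, trace_eq_sum_embeddings]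
  rw [map_sum]
  simp only [map_mul (algebraMap L (AlgebraicClosure L)), h5, Finset.mul_sum]
  rw [Finset.sum_comm]
  have h6 : ∀ σ : L →ₐ[Q] AlgebraicClosure L,
      ∑ i, algebraMap L (AlgebraicClosure L) (a i ^ p ^ e) * σ (b i ^ p ^ e * z) =
        (∑ i, σ0 (a i) * σ (b i)) ^ p ^ e * σ z := by
    intro σ
    rw [sum_pow_char_pow, Finset.sum_mul]
    refine Finset.sum_congr rfl fun i _ => ?_
    rw [h4, map_pow, map_mul, map_pow, mul_pow]
    ring
  rw [Finset.sum_congr rfl fun σ _ => h6 σ, Finset.sum_eq_single σ0]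
  · rw [h4, h4, map_pow]
    congr 2
    rw [← hab, map_sum]
    exact Finset.sum_congr rfl fun i _ => map_mul _ _ _
  · intro σ _ hσ
    rw [h1 σ hσ, zero_pow (pow_ne_zero _ (Fact.out : p.Prime).ne_zero), zero_mul]
  · intro hcon
    exact absurd (Finset.mem_univ _) hcon

end trace

/-- From the separability element to the trace frame. -/
theorem trf : S_TRF := by
  intro K L ι _ _ _ _ _ x p D y θ hp hch hx hθ ha hc hsep
  have : Fact p.Prime := ⟨hp⟩
  have : CharP L p := charP_of_injective_algebraMap (algebraMap K L).injective p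
  obtain ⟨n, R, r, r', a, b, g, hab, hg, hs, ht⟩ := hsep
  have hfin := finite_of_model hx hc
  by_cases hg0 : g = 0
  · refine ⟨θ, 0, n, R, r, r', a, b, g, hθ, ha, hc, ?_, ?_, ?_, hab, hg, ?_⟩
    · intro e z _
      exact Submodule.zero_mem _
    · intro k z
      simp
    · intro z
      simp [hp.ne_zero]
    · intro e z
      simp [hg0, hp.ne_zero]
  · have hsp := sep_of _ hg0 hs ht
    refine ⟨θ, (IsScalarTower.toAlgHom K (IntermediateField.adjoin K (Set.range θ)) L).toLinearMap
      ∘ₗ (Algebra.trace (IntermediateField.adjoin K (Set.range θ)) L).restrictScalars K,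
      n, R, r, r', a, b, g, hθ, ha, hc, ?_, ?_, ?_, hab, hg, ?_⟩
    · intro e z hz
      exact trace_hom hx hθ ha hc hz
    · intro k z
      have h1 : θ k * z = (⟨θ k, IntermediateField.subset_adjoin _ _ (Set.mem_range_self k)⟩ :
          IntermediateField.adjoin K (Set.range θ)) • z := rfl
      rw [h1]
      simp only [LinearMap.comp_apply, LinearMap.restrictScalars_apply, map_smul]
      rfl
    · intro z
      exact trace_pow _ p z
    · intro e z
      exact trace_formula _ p hs ht e z

end Pool.Agent.Y758.GS
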