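import Pool.Agent.Y234.GS.StmC
import Pool.Agent.Y758.GS.Trf

/-!
# Project GS: smooth charts and a connected complex give a domain (S_DOM)

Annihilators are locally generated by idempotents.  So if `z z' = 0` then there are homogeneous
elements `a i`, `a' i` with `a i + a' i = x i ^ N`, `a i z = 0`, `a' i b = 0` for all homogeneous
`b` with `b z = 0`.  The top weight parts of the normal forms, restricted to the faces, give a
contradiction.
-/

set_option autoImplicit false

namespace Pool.Agent.Y758.GS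

open MvPolynomial Pool.Agent.Y234.GS

section poly

variable {k ι : Type} [Field k] [Fintype ι]

/-- All monomials have weight at most `s`. -/
def Wle (w : ι → ℕ) (s : ℕ) (G : MvPolynomial ι k) : Prop :=
  ∀ b : ι →₀ ℕ, coeff b G ≠ 0 → wt w b ≤ s

open Classical in
/-- The part of weight `s`, with support in `F`. -/
noncomputable def pr (w : ι → ℕ) (F : Finset ι) (s : ℕ) (G : MvPolynomial ι k) :
    MvPolynomial ι k :=
  ∑ b ∈ G.support.filter (fun b : ι →₀ ℕ => wt w ⇑b = s ∧ supp ⇑b ⊆ F), monomial b (coeff b G)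

open Classical in
theorem coeff_pr (w : ι → ℕ) (F : Finset ι) (s : ℕ) (G : MvPolynomial ι k) (c : ι →₀ ℕ) :
    coeff c (pr w F s G) = if wt w c = s ∧ supp c ⊆ F then coeff c G else 0 := by
  rw [pr, coeff_sum]
  simp only [coeff_monomial, Finset.sum_ite_eq', Finset.mem_filter, mem_support_iff]
  by_cases h : coeff c G = 0
  · simp [h]
  · simp [h]

theorem wt_add (w : ι → ℕ) (b b' : ι →₀ ℕ) : wt w ⇑(b + b') = wt w b + wt w b' := by
  simp [wt, mul_add, Finset.sum_add_distrib]

theorem deg_add (b b' : ι →₀ ℕ) : deg ⇑(b + b') = deg b + deg b' := by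
  simp [deg, Finset.sum_add_distrib]

theorem supp_add_subset (b b' : ι →₀ ℕ) (F : Finset ι) :
    supp ⇑(b + b') ⊆ F ↔ supp b ⊆ F ∧ supp b' ⊆ F := by
  simp only [supp, Finset.subset_iff, Finset.mem_filter, Finset.mem_univ, true_and,
    Finsupp.coe_add, Pi.add_apply, ne_eq, Nat.add_eq_zero_iff, not_and_or]
  constructor
  · intro h
    exact ⟨fun i hi => h (Or.inl hi), fun i hi => h (Or.inr hi)⟩
  · rintro ⟨h1, h2⟩ i hi
    exact hi.elim (fun h => h1 h) (fun h => h2 h)

theorem hom_deg {M : ℕ} {G : MvPolynomial ι k} (hG : G.IsHomogeneous M) {b : ι →₀ ℕ}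
    (hb : coeff b G ≠ 0) : deg b = M := by
  have h2 := hG hb
  rw [← h2, Finsupp.weight_apply, Finsupp.sum_fintype]
  · simp [deg]
  · simp

theorem Wle.mul {w : ι → ℕ} {s t : ℕ} {G H : MvPolynomial ι k} (hG : Wle w s G)
    (hH : Wle w t H) : Wle w (s + t) (G * H) := by
  classical
  intro b hb
  rw [coeff_mul] at hb
  obtain ⟨c, hc, hc0⟩ := Finset.exists_ne_zero_of_sum_ne_zero hb
  rw [Finset.HasAntidiagonal.mem_antidiagonal] at hc
  rw [← hc, wt_add]
  exact add_le_add (hG _ (left_ne_zero_of_mul hc0)) (hH _ (right_ne_zero_of_mul hc0))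

theorem pr_mul {w : ι → ℕ} {s t : ℕ} {G H : MvPolynomial ι k} (hG : Wle w s G)
    (hH : Wle w t H) (F : Finset ι) : pr w F (s + t) (G * H) = pr w F s G * pr w F t H := by
  classical
  ext c
  rw [coeff_pr, coeff_mul, coeff_mul]
  simp only [coeff_pr]
  split_ifs with h
  · refine Finset.sum_congr rfl fun b hb => ?_
    rw [Finset.HasAntidiagonal.mem_antidiagonal] at hb
    rw [← hb, wt_add, supp_add_subset] at h
    by_cases h1 : coeff b.1 G = 0
    · simp [h1]
    by_cases h2 : coeff b.2 H = 0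
    · simp [h2]
    have h3 := hG _ h1
    have h4 := hH _ h2
    rw [if_pos ⟨by omega, h.2.1⟩, if_pos ⟨by omega, h.2.2⟩]
  · symm
    refine Finset.sum_eq_zero fun b hb => ?_
    rw [Finset.HasAntidiagonal.mem_antidiagonal] at hb
    rw [← hb, wt_add, supp_add_subset] at h
    by_cases h1 : wt w b.1 = s ∧ supp b.1 ⊆ F
    · rw [if_neg (fun h2 : wt w b.2 = t ∧ supp b.2 ⊆ F =>
        h ⟨by rw [h1.1, h2.1], h1.2, h2.2⟩), mul_zero]
    · rw [if_neg h1, zero_mul]

end poly

section ring

variable {k A ι : Type} [Field k] [CommRing A] [Algebra k A] [LinearOrder ι] [Fintype ι]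
  {x : ι → A} {w : ι → ℕ} {Δ : Finset (Finset ι)}

omit [LinearOrder ι] in
theorem aeval_eq_sum_mon (x : ι → A) (G : MvPolynomial ι k) :
    aeval x G = ∑ b ∈ G.support, coeff b G • mon x b := by
  rw [MvPolynomial.aeval_def, MvPolynomial.eval₂_eq']
  exact Finset.sum_congr rfl fun b _ => by rw [Algebra.smul_def]; rfl

/-- The coordinate functional of a standard exponent. -/
theorem exists_coord (hg : Grob k x w Δ) {b : ι → ℕ} (hb : supp b ∈ Δ) :
    ∃ c : A →ₗ[k] k, ∀ b' : ι → ℕ, deg b' = deg b → wt w b' ≤ wt w b →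
      c (mon x b') = if b' = b then 1 else 0 := by
  classical
  let St := {b' : ι → ℕ // deg b' = deg b ∧ supp b' ∈ Δ}
  have h1 := hg.indep (deg b)
  rw [linearIndependent_iff_ker] at h1
  obtain ⟨g, hgl⟩ := LinearMap.exists_leftInverse_of_injective _ h1
  have h2 : ∀ b' : St, g (mon x b'.1) = Finsupp.single b' 1 := by
    intro b'
    have h3 := LinearMap.congr_fun hgl (Finsupp.single b' 1)
    simpa using h3
  refine ⟨(Finsupp.lapply (⟨b, rfl, hb⟩ : St)).comp g, fun b' hb' hw => ?_⟩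
  by_cases hs : supp b' ∈ Δ
  · have h3 := h2 ⟨b', hb', hs⟩
    rw [LinearMap.comp_apply, h3, Finsupp.lapply_apply, Finsupp.single_apply]
    simp only [Subtype.mk.injEq]
  · have h4 : ∀ z ∈ Submodule.span k {a : A | ∃ b'' : ι → ℕ, deg b'' = deg b' ∧ supp b'' ∈ Δ ∧
        wt w b'' < wt w b' ∧ a = mon x b''}, (Finsupp.lapply (⟨b, rfl, hb⟩ : St)).comp g z = 0 := by
      intro z hz
      induction hz using Submodule.span_induction with
      | mem z hz =>
        obtain ⟨b'', h5, h6, h7, rfl⟩ := hz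
        have h3 := h2 ⟨b'', h5.trans hb', h6⟩
        rw [LinearMap.comp_apply, h3, Finsupp.lapply_apply, Finsupp.single_apply, if_neg]
        intro h8
        rw [Subtype.mk.injEq] at h8
        rw [h8] at h7
        omega
      | zero => exact map_zero _
      | add a b _ _ ha hb => rw [map_add, ha, hb, add_zero]
      | smul t a _ ha => rw [map_smul, ha, smul_zero]
    rw [h4 _ (hg.red b' hs), if_neg]
    rintro rfl
    exact hs hb

/-- Top weight coefficients of relations vanish. -/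
theorem coef_top (hg : Grob k x w Δ) {M : ℕ} {G : MvPolynomial ι k} (hG : G.IsHomogeneous M)
    {b : ι →₀ ℕ} (hw : Wle w (wt w b) G) (h0 : aeval x G = 0) (hb : supp b ∈ Δ) :
    coeff b G = 0 := by
  classical
  by_contra hne
  have hM := hom_deg hG hne
  obtain ⟨c, hc⟩ := exists_coord hg hb
  have h1 := congrArg c h0
  rw [aeval_eq_sum_mon, map_zero, map_sum] at h1
  rw [Finset.sum_eq_single b] at h1
  · rw [map_smul, hc b rfl le_rfl, if_pos rfl, smul_eq_mul, mul_one] at h1
    exact hne h1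
  · intro b' hb' hbb'
    rw [mem_support_iff] at hb'
    rw [map_smul, hc b' ((hom_deg hG hb').trans hM.symm) (hw _ hb'), if_neg, smul_zero]
    intro h2
    exact hbb' (DFunLike.coe_injective h2)
  · intro h2
    rw [notMem_support_iff] at h2
    rw [h2, zero_smul, map_zero]

/-- The top weight parts of factors of relations, restricted to a face. -/
theorem zero_top (hg : Grob k x w Δ) {M M' s t : ℕ} {G H : MvPolynomial ι k}
    (hG : G.IsHomogeneous M) (hH : H.IsHomogeneous M') (hGs : Wle w s G) (hHt : Wle w t H)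
    (h0 : aeval x (G * H) = 0) {F : Finset ι} (hF : F ∈ Δ) :
    pr w F s G = 0 ∨ pr w F t H = 0 := by
  classical
  rw [← mul_eq_zero, ← pr_mul hGs hHt]
  ext c
  rw [coeff_pr, coeff_zero]
  split_ifs with h
  · refine coef_top hg (hG.mul hH) ?_ h0 (hg.down F hF _ h.2)
    rw [h.1]
    exact hGs.mul hHt
  · rfl

/-- Normal forms. -/
def NF (Δ : Finset (Finset ι)) (G : MvPolynomial ι k) : Prop :=
  ∀ b : ι →₀ ℕ, coeff b G ≠ 0 → supp b ∈ Δ

omit [LinearOrder ι] in
/-- The top exponent of a nonzero normal form. -/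
theorem exists_top (w : ι → ℕ) {G : MvPolynomial ι k} (hn : NF Δ G) (hG0 : G ≠ 0) :
    ∃ b : ι →₀ ℕ, supp b ∈ Δ ∧ Wle w (wt w b) G ∧ pr w (supp b) (wt w b) G ≠ 0 ∧
      coeff b G ≠ 0 := by
  classical
  obtain ⟨b, hb, hmax⟩ := Finset.exists_max_image G.support (fun b => wt w b)
    (support_nonempty.2 hG0)
  rw [mem_support_iff] at hb
  refine ⟨b, hn b hb, fun c hc => hmax c (mem_support_iff.2 hc), fun h0 => ?_, hb⟩
  have h1 := congrArg (coeff b) h0
  rw [coeff_pr, if_pos ⟨rfl, Finset.Subset.refl _⟩, coeff_zero] at h1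
  exact hb h1

theorem NF.eq_zero (hg : Grob k x w Δ) {M : ℕ} {G : MvPolynomial ι k} (hn : NF Δ G)
    (hG : G.IsHomogeneous M) (h0 : aeval x G = 0) : G = 0 := by
  by_contra hG0
  obtain ⟨b, hb, hw, -, hne⟩ := exists_top w hn hG0
  exact hne (coef_top hg hG hw h0 hb)

theorem mon_mem_nf (hg : Grob k x w Δ) (b : ι → ℕ) :
    ∃ G : MvPolynomial ι k, NF Δ G ∧ G.IsHomogeneous (deg b) ∧ aeval x G = mon x b := by
  classical
  have h0 : ∀ b : ι → ℕ, supp b ∈ Δ →
      ∃ G : MvPolynomial ι k, NF Δ G ∧ G.IsHomogeneous (deg b) ∧ aeval x G = mon x b := by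
    intro b hb
    refine ⟨monomial (Finsupp.equivFunOnFinite.symm b) 1, ?_, ?_, ?_⟩
    · intro c hc
      rw [coeff_monomial] at hc
      have h1 : Finsupp.equivFunOnFinite.symm b = c := by
        by_contra h2
        rw [if_neg h2] at hc
        exact hc rfl
      rw [← h1]
      exact hb
    · refine isHomogeneous_monomial _ ?_
      rw [Finsupp.degree_eq_sum]
      rfl
    · rw [aeval_monomial, map_one, one_mul, Finsupp.prod_fintype]
      · rfl
      · simp
  by_cases hb : supp b ∈ Δ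
  · exact h0 b hb
  · have h1 := hg.red b hb
    generalize mon x b = y at h1 ⊢
    induction h1 using Submodule.span_induction with
    | mem z hz =>
      obtain ⟨b', h2, h3, -, rfl⟩ := hz
      rw [← h2]
      exact h0 b' h3
    | zero => exact ⟨0, fun c hc => absurd (coeff_zero c) hc, isHomogeneous_zero _ _ _, map_zero _⟩
    | add y z _ _ hy hz =>
      obtain ⟨G, hG1, hG2, rfl⟩ := hy
      obtain ⟨H, hH1, hH2, rfl⟩ := hz
      refine ⟨G + H, fun c hc => ?_, hG2.add hH2, map_add _ _ _⟩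
      rw [coeff_add] at hc
      by_cases h4 : coeff c G = 0
      · rw [h4, zero_add] at hc
        exact hH1 c hc
      · exact hG1 c h4
    | smul t y _ hy =>
      obtain ⟨G, hG1, hG2, rfl⟩ := hy
      refine ⟨t • G, fun c hc => ?_, ?_, map_smul _ _ _⟩
      · rw [coeff_smul] at hc
        exact hG1 c (right_ne_zero_of_mul hc)
      · rw [smul_eq_C_mul]
        simpa using (isHomogeneous_C ι t).mul hG2

/-- Existence of normal forms. -/
theorem exists_nf (hg : Grob k x w Δ) {M : ℕ} {G : MvPolynomial ι k} (hG : G.IsHomogeneous M) :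
    ∃ G' : MvPolynomial ι k, NF Δ G' ∧ G'.IsHomogeneous M ∧ aeval x G' = aeval x G := by
  classical
  have h1 := fun b : ι →₀ ℕ => mon_mem_nf hg (⇑b)
  choose R hR1 hR2 hR3 using h1
  refine ⟨∑ b ∈ G.support, coeff b G • R b, fun c hc => ?_, ?_, ?_⟩
  · rw [coeff_sum] at hc
    obtain ⟨b, hb, hc0⟩ := Finset.exists_ne_zero_of_sum_ne_zero hc
    rw [coeff_smul] at hc0
    exact hR1 b c (right_ne_zero_of_mul hc0)
  · refine IsHomogeneous.sum _ _ _ fun b hb => ?_
    rw [smul_eq_C_mul, ← hom_deg hG (mem_support_iff.1 hb)]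
    simpa using (isHomogeneous_C ι _).mul (hR2 b)
  · rw [map_sum, aeval_eq_sum_mon x G]
    exact Finset.sum_congr rfl fun b _ => by rw [map_smul, hR3]

omit [LinearOrder ι] in
theorem pr_add (w : ι → ℕ) (F : Finset ι) (s : ℕ) (G H : MvPolynomial ι k) :
    pr w F s (G + H) = pr w F s G + pr w F s H := by
  classical
  ext c
  rw [coeff_add, coeff_pr, coeff_pr, coeff_pr, coeff_add]
  split_ifs
  · rfl
  · rw [add_zero]

omit [LinearOrder ι] in
theorem wt_single (w : ι → ℕ) (i : ι) (N : ℕ) : wt w ⇑(Finsupp.single i N) = w i * N := by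
  classical
  rw [wt, Finset.sum_eq_single i]
  · simp
  · intro j _ hj
    rw [Finsupp.single_eq_of_ne hj, mul_zero]
  · intro h
    exact absurd (Finset.mem_univ _) h

omit [LinearOrder ι] in
theorem supp_single (i : ι) (N : ℕ) : supp ⇑(Finsupp.single i N) ⊆ {i} := by
  classical
  intro j hj
  simp only [supp, Finset.mem_filter, Finset.mem_univ, true_and] at hj
  rw [Finset.mem_singleton]
  by_contra h
  exact hj (Finsupp.single_eq_of_ne h)

omit [LinearOrder ι] in
theorem pr_X_pow (w : ι → ℕ) {F : Finset ι} {i : ι} (hi : i ∈ F) (N : ℕ) :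
    pr w F (w i * N) (X i ^ N : MvPolynomial ι k) = X i ^ N := by
  classical
  ext c
  rw [coeff_pr, X_pow_eq_monomial, coeff_monomial]
  by_cases h : Finsupp.single i N = c
  · rw [← h, if_pos ⟨wt_single w i N, (supp_single i N).trans (by simpa using hi)⟩]
  · rw [if_neg h, ite_self]

omit [LinearOrder ι] in
theorem pr_X_pow' (w : ι → ℕ) (F : Finset ι) {i : ι} {s N : ℕ} (hs : s ≠ w i * N) :
    pr w F s (X i ^ N : MvPolynomial ι k) = 0 := by
  classical
  ext c
  rw [coeff_pr, X_pow_eq_monomial, coeff_monomial, coeff_zero]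
  by_cases h : Finsupp.single i N = c
  · rw [if_neg]
    rintro ⟨h1, -⟩
    rw [← h, wt_single] at h1
    exact hs h1.symm
  · rw [if_neg h, ite_self]

theorem red_two (hg : Grob k x w Δ) {M : ℕ} {G : MvPolynomial ι k} (hG : G.IsHomogeneous M)
    (h0 : (aeval x G) ^ 2 = 0) : aeval x G = 0 := by
  obtain ⟨G', hn, hG', he⟩ := exists_nf hg hG
  rw [← he] at h0 ⊢
  by_cases hz : G' = 0
  · rw [hz, map_zero]
  · exfalso
    obtain ⟨b, hb, hw, hpr, -⟩ := exists_top w hn hz
    rcases zero_top hg hG' hG' hw hw (by rw [map_mul, ← pow_two, h0]) hb with h | h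
    · exact hpr h
    · exact hpr h

theorem red_pow (hg : Grob k x w Δ) (n : ℕ) {M : ℕ} {G : MvPolynomial ι k}
    (hG : G.IsHomogeneous M) (h0 : (aeval x G) ^ 2 ^ n = 0) : aeval x G = 0 := by
  induction n with
  | zero => simpa using h0
  | succ n ih =>
    refine ih ?_
    have h1 : (aeval x (G ^ 2 ^ n)) ^ 2 = 0 := by
      rw [map_pow, ← pow_mul, ← pow_succ, h0]
    have h2 := red_two hg (hG.pow (2 ^ n)) h1
    rwa [map_pow] at h2

theorem red_t (hg : Grob k x w Δ) {M : ℕ} {G : MvPolynomial ι k} (hG : G.IsHomogeneous M) (i : ι)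
    (t : ℕ) (h : x i ^ t * aeval x G = 0) : x i * aeval x G = 0 := by
  have h1 : aeval x (X i * G) = x i * aeval x G := by rw [map_mul, aeval_X]
  rw [← h1]
  refine red_pow hg t ((isHomogeneous_X k i).mul hG) ?_
  rw [h1, mul_pow]
  have h2 : t + (2 ^ t - t) = 2 ^ t := by
    have := (Nat.lt_two_pow_self (n := t)).le
    omega
  have h3 : 1 + (2 ^ t - 1) = 2 ^ t := by
    have := Nat.one_le_two_pow (n := t)
    omega
  calc x i ^ 2 ^ t * aeval x G ^ 2 ^ t = x i ^ (t + (2 ^ t - t)) * aeval x G ^ (1 + (2 ^ t - 1)) := by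
        rw [h2, h3]
    _ = (x i ^ t * aeval x G) * (x i ^ (2 ^ t - t) * aeval x G ^ (2 ^ t - 1)) := by
        rw [pow_add, pow_add, pow_one]
        ring
    _ = 0 := by rw [h, zero_mul]

omit [LinearOrder ι] [Fintype ι] in
theorem comp_mul (hx : RMod k x) {j : ℕ} {T : MvPolynomial ι k} (hT : T.IsHomogeneous j)
    {B : MvPolynomial ι k} (h : aeval x (T * B) = 0) (d : ℕ) :
    aeval x (T * homogeneousComponent d B) = 0 := by
  have h1 := homogeneousComponent_lin (LinearMap.mulLeft k T) j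
    (fun d A hA => by simpa [add_comm] using hT.mul hA) d B
  have h2 := hx.hom _ h (d + j)
  rw [LinearMap.mulLeft_apply, LinearMap.mulLeft_apply] at h1
  rwa [h1] at h2

omit [LinearOrder ι] in
theorem NF.add {G H : MvPolynomial ι k} (hG : NF Δ G) (hH : NF Δ H) : NF Δ (G + H) := by
  intro c hc
  rw [coeff_add] at hc
  by_cases h4 : coeff c G = 0
  · rw [h4, zero_add] at hc
    exact hH c hc
  · exact hG c h4

omit [LinearOrder ι] in
theorem NF.neg {G : MvPolynomial ι k} (hG : NF Δ G) : NF Δ (-G) := by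
  intro c hc
  rw [coeff_neg] at hc
  exact hG c (neg_ne_zero.1 hc)

theorem NF.X_pow (hg : Grob k x w Δ) (i : ι) (N : ℕ) : NF Δ (X i ^ N : MvPolynomial ι k) := by
  classical
  intro c hc
  rw [X_pow_eq_monomial, coeff_monomial] at hc
  have h1 : Finsupp.single i N = c := by
    by_contra h2
    rw [if_neg h2] at hc
    exact hc rfl
  rw [← h1]
  exact hg.down _ (hg.sing i) _ (supp_single i N)

theorem local_split (hS : S_SMI) (hx : RMod k x) (hs : RSmooth k x) (hg : Grob k x w Δ)
    {M : ℕ} {Z : MvPolynomial ι k} (hZ : Z.IsHomogeneous M) (i : ι) :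
    ∃ (N : ℕ) (G G' : MvPolynomial ι k), 1 ≤ N ∧ G.IsHomogeneous N ∧ G'.IsHomogeneous N ∧
      NF Δ G ∧ NF Δ G' ∧ G + G' = X i ^ N ∧ aeval x (G * Z) = 0 ∧
      ∀ (M' : ℕ) (B : MvPolynomial ι k), B.IsHomogeneous M' → aeval x (B * Z) = 0 →
        aeval x (B * G') = 0 := by
  have hsi := hs i
  obtain ⟨-, hann, -, -⟩ := hS k (Localization.Away (x i))
  obtain ⟨e, he, hez⟩ := hann (algebraMap A _ (aeval x Z))
  obtain ⟨⟨a, s⟩, has⟩ := IsLocalization.surj (Submonoid.powers (x i)) e
  obtain ⟨n, hn⟩ := s.2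
  obtain ⟨Ga, rfl⟩ : ∃ Ga : MvPolynomial ι k, aeval x Ga = a := by
    have h1 : a ∈ Algebra.adjoin k (Set.range x) := by
      rw [hx.gen]
      exact Algebra.mem_top
    rw [Algebra.adjoin_range_eq_range_aeval] at h1
    exact h1
  simp only at has
  rw [← hn] at has
  have hkill : ∀ u : A, algebraMap A (Localization.Away (x i)) u = 0 → ∃ t : ℕ, x i ^ t * u = 0 := by
    intro u hu
    rw [IsLocalization.map_eq_zero_iff (Submonoid.powers (x i))] at hu
    obtain ⟨⟨m, t, ht⟩, hm⟩ := hu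
    refine ⟨t, ?_⟩
    simp only at ht hm
    rw [ht, hm]
  have hcomp : homogeneousComponent n (X i ^ n - Ga) = X i ^ n - homogeneousComponent n Ga := by
    rw [map_sub, homogeneousComponent_eq_self]
    simpa using (isHomogeneous_X k i).pow n
  have e1 : x i * aeval x (homogeneousComponent n Ga * Z) = 0 := by
    have h1 : e * algebraMap A _ (aeval x Z) = 0 := (hez e).2 ⟨1, by rw [mul_one]⟩
    have h2 : algebraMap A (Localization.Away (x i)) (aeval x Ga * aeval x Z) = 0 := by
      rw [map_mul, ← has, mul_right_comm, h1, zero_mul]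
    obtain ⟨t, ht⟩ := hkill _ h2
    have h3 : aeval x ((X i ^ t * Z) * Ga) = 0 := by
      rw [map_mul, map_mul, map_pow, aeval_X, ← ht]
      ring
    have h4 := comp_mul hx (((isHomogeneous_X k i).pow t).mul hZ) h3 n
    refine red_t hg ((homogeneousComponent_isHomogeneous n Ga).mul hZ) i t ?_
    rw [← h4, map_mul, map_mul, map_mul, map_pow, aeval_X]
    ring
  have e2 : ∀ (M' : ℕ) (B : MvPolynomial ι k), B.IsHomogeneous M' → aeval x (B * Z) = 0 →
      x i * aeval x (B * (X i ^ n - homogeneousComponent n Ga)) = 0 := by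
    intro M' B hB h0
    rw [map_mul] at h0
    obtain ⟨c, hc⟩ := (hez (algebraMap A _ (aeval x B))).1 (by rw [← map_mul, h0, map_zero])
    have h1 : e * algebraMap A _ (aeval x B) = algebraMap A _ (aeval x B) := by
      rw [hc, ← mul_assoc, he]
    have h2 : algebraMap A (Localization.Away (x i)) (aeval x B * (x i ^ n - aeval x Ga)) = 0 := by
      rw [map_mul, map_sub, ← has]
      linear_combination (-algebraMap A (Localization.Away (x i)) (x i ^ n)) * h1
    obtain ⟨t, ht⟩ := hkill _ h2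
    have h3 : aeval x ((X i ^ t * B) * (X i ^ n - Ga)) = 0 := by
      rw [map_mul, map_mul, map_pow, map_sub, map_pow, aeval_X, ← ht]
      ring
    have h4 := comp_mul hx (((isHomogeneous_X k i).pow t).mul hB) h3 n
    rw [hcomp] at h4
    have h5 : (X i ^ n - homogeneousComponent n Ga).IsHomogeneous n := by
      rw [← hcomp]
      exact homogeneousComponent_isHomogeneous _ _
    refine red_t hg (hB.mul h5) i t ?_
    rw [← h4, map_mul, map_mul, map_mul, map_pow, aeval_X]
    ring
  have h5 : (X i ^ n - homogeneousComponent n Ga).IsHomogeneous n := by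
    rw [← hcomp]
    exact homogeneousComponent_isHomogeneous _ _
  obtain ⟨G, hG1, hG2, hG3⟩ := exists_nf hg
    ((homogeneousComponent_isHomogeneous n Ga).mul (isHomogeneous_X k i))
  obtain ⟨G', hG'1, hG'2, hG'3⟩ := exists_nf hg (h5.mul (isHomogeneous_X k i))
  refine ⟨n + 1, G, G', Nat.le_add_left _ _, hG2, hG'2, hG1, hG'1, ?_, ?_, ?_⟩
  · rw [← sub_eq_zero, sub_eq_add_neg]
    refine NF.eq_zero hg ((hG1.add hG'1).add (NF.X_pow hg i (n + 1)).neg)
      (M := n + 1) ((hG2.add hG'2).add (IsHomogeneous.neg (by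
        simpa using (isHomogeneous_X k i).pow (n + 1)))) ?_
    rw [map_add, map_add, map_neg, hG3, hG'3, map_mul, map_mul, map_sub, map_pow, map_pow, aeval_X]
    ring
  · rw [map_mul, hG3, ← e1, map_mul, map_mul, aeval_X]
    ring
  · intro M' B hB h0
    rw [map_mul, hG'3, ← e2 M' B hB h0, map_mul, map_mul, aeval_X]
    ring

/-- The weights of the two parts of a power of a variable. -/
theorem wle_of_split (hg : Grob k x w Δ) {i : ι} {N : ℕ} {G G' : MvPolynomial ι k}
    (hG : G.IsHomogeneous N) (hG' : G'.IsHomogeneous N) (hn : NF Δ G)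
    (hs : G + G' = X i ^ N) (h0 : aeval x (G * G') = 0) : Wle w (w i * N) G := by
  classical
  intro b hb
  by_contra hlt
  have hG0 : G ≠ 0 := by
    rintro rfl
    exact hb (coeff_zero b)
  obtain ⟨b0, hb0, hw, hpr, -⟩ := exists_top w hn hG0
  have h1 : w i * N < wt w b0 := by
    have := hw b hb
    omega
  have hw' : Wle w (wt w b0) G' := by
    intro c hc
    have h2 : G' = X i ^ N - G := by rw [← hs]; ring
    rw [h2, coeff_sub, X_pow_eq_monomial, coeff_monomial] at hc
    by_cases h3 : Finsupp.single i N = c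
    · rw [← h3, wt_single]
      exact h1.le
    · rw [if_neg h3, zero_sub] at hc
      exact hw c (neg_ne_zero.1 hc)
  have h4 := pr_add w (supp b0) (wt w b0) G G'
  rw [hs, pr_X_pow' w _ (Nat.ne_of_gt h1)] at h4
  rcases zero_top hg hG hG' hw hw' h0 hb0 with h | h
  · exact hpr h
  · rw [h, add_zero] at h4
    exact hpr h4.symm

/-- Elements killed by elements with nonzero symbols on all faces vanish. -/
theorem eq_zero_of_kill (hg : Grob k x w Δ) (N : ι → ℕ) (H : ι → MvPolynomial ι k)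
    (hH : ∀ i, (H i).IsHomogeneous (N i)) (hw : ∀ i, Wle w (w i * N i) (H i))
    (hne : ∀ i, ∀ F ∈ Δ, i ∈ F → pr w F (w i * N i) (H i) ≠ 0) {M : ℕ} (hM : M ≠ 0)
    {Y : MvPolynomial ι k} (hY : Y.IsHomogeneous M) (h0 : ∀ i, aeval x (Y * H i) = 0) :
    aeval x Y = 0 := by
  classical
  obtain ⟨Y', hn, hY', he⟩ := exists_nf hg hY
  rw [← he]
  by_cases hz : Y' = 0
  · rw [hz, map_zero]
  · exfalso
    obtain ⟨b, hb, hwb, hpr, hbne⟩ := exists_top w hn hz
    have h1 := hom_deg hY' hbne
    obtain ⟨i, -, hi⟩ : ∃ i ∈ Finset.univ, b i ≠ 0 := by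
      by_contra hcon
      push Not at hcon
      exact hM (by rw [← h1]; exact Finset.sum_eq_zero hcon)
    have hiF : i ∈ supp b := by
      simp only [supp, Finset.mem_filter, Finset.mem_univ, true_and]
      exact hi
    have h2 : aeval x (Y' * H i) = 0 := by
      rw [map_mul, he, ← map_mul, h0 i]
    rcases zero_top hg hY' (hH i) hwb (hw i) h2 hb with h | h
    · exact hpr h
    · exact hne i _ hb hiF h

omit [LinearOrder ι] [Fintype ι] in
theorem X_pow_ne (i : ι) (N : ℕ) : (X i ^ N : MvPolynomial ι k) ≠ 0 := pow_ne_zero _ (X_ne_zero i)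

/-- No homogeneous zero divisors. -/
theorem hom_domain [Nonempty ι] (hS : S_SMI) (hx : RMod k x) (hs : RSmooth k x)
    (hg : Grob k x w Δ)
    (hconn : ∀ P : ι → Prop, (∀ i j, {i, j} ∈ Δ → (P i ↔ P j)) → ∀ i j, (P i ↔ P j))
    {M M' : ℕ} {Z Z' : MvPolynomial ι k} (hZ : Z.IsHomogeneous M) (hZ' : Z'.IsHomogeneous M')
    (h0 : aeval x (Z * Z') = 0) : aeval x Z = 0 ∨ aeval x Z' = 0 := by
  classical
  have hconst : ∀ {M M' : ℕ} {Z Z' : MvPolynomial ι k}, M = 0 → Z.IsHomogeneous M →
      Z'.IsHomogeneous M' → aeval x (Z * Z') = 0 → aeval x Z = 0 ∨ aeval x Z' = 0 := by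
    intro M M' Z Z' hM hZ hZ' h0
    subst hM
    rw [← totalDegree_zero_iff_isHomogeneous, totalDegree_eq_zero_iff_eq_C] at hZ
    rw [hZ] at h0 ⊢
    by_cases hc : coeff 0 Z = 0
    · left
      rw [hc, C_0, map_zero]
    · right
      rw [← smul_eq_C_mul, map_smul] at h0
      exact (smul_eq_zero.1 h0).resolve_left hc
  by_cases hM : M = 0
  · exact hconst hM hZ hZ' h0
  by_cases hM' : M' = 0
  · rw [mul_comm] at h0
    exact (hconst hM' hZ' hZ h0).symm
  choose N G G' hN hG hG' hn hn' hadd hGZ hB using local_split hS hx hs hg hZ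
  have hGG : ∀ i j, aeval x (G i * G' j) = 0 := fun i j => hB j _ _ (hG i) (hGZ i)
  have hw : ∀ i, Wle w (w i * N i) (G i) := fun i =>
    wle_of_split hg (hG i) (hG' i) (hn i) (hadd i) (hGG i i)
  have hw' : ∀ i, Wle w (w i * N i) (G' i) := fun i =>
    wle_of_split hg (hG' i) (hG i) (hn' i) (by rw [add_comm, hadd i])
      (by rw [mul_comm, hGG i i])
  have hpa : ∀ i, ∀ F ∈ Δ, i ∈ F → pr w F (w i * N i) (G i) + pr w F (w i * N i) (G' i) =
      X i ^ N i := by
    intro i F _ hi
    rw [← pr_add, hadd i, pr_X_pow w hi]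
  have hcf : ∀ i, ∀ F ∈ Δ, i ∈ F → coeff (Finsupp.single i (N i)) (pr w F (w i * N i) (G i)) =
      coeff (Finsupp.single i (N i)) (G i) := by
    intro i F _ hi
    rw [coeff_pr, if_pos ⟨wt_single w i (N i), (supp_single i (N i)).trans (by simpa using hi)⟩]
  have hA0 : ∀ i, coeff (Finsupp.single i (N i)) (G i) = 0 → ∀ F ∈ Δ, i ∈ F →
      pr w F (w i * N i) (G i) = 0 := by
    intro i hi F hF hiF
    rcases zero_top hg (hG i) (hG' i) (hw i) (hw' i) (hGG i i) hF with h | h
    · exact h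
    · exfalso
      have h1 := hpa i F hF hiF
      rw [h, add_zero] at h1
      have h2 := hcf i F hF hiF
      rw [h1, hi, X_pow_eq_monomial, coeff_monomial, if_pos rfl] at h2
      exact one_ne_zero h2
  have hA1 : ∀ i, coeff (Finsupp.single i (N i)) (G i) ≠ 0 → ∀ F ∈ Δ, i ∈ F →
      pr w F (w i * N i) (G' i) = 0 := by
    intro i hi F hF hiF
    rcases zero_top hg (hG i) (hG' i) (hw i) (hw' i) (hGG i i) hF with h | h
    · exfalso
      have h2 := hcf i F hF hiF
      rw [h, coeff_zero] at h2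
      exact hi h2.symm
    · exact h
  have hB0 : ∀ i, coeff (Finsupp.single i (N i)) (G i) = 0 → ∀ F ∈ Δ, i ∈ F →
      pr w F (w i * N i) (G' i) ≠ 0 := by
    intro i hi F hF hiF h
    have h1 := hpa i F hF hiF
    rw [hA0 i hi F hF hiF, h, add_zero] at h1
    exact X_pow_ne i (N i) h1.symm
  have hB1 : ∀ i, coeff (Finsupp.single i (N i)) (G i) ≠ 0 → ∀ F ∈ Δ, i ∈ F →
      pr w F (w i * N i) (G i) ≠ 0 := by
    intro i hi F hF hiF h
    have h1 := hpa i F hF hiF
    rw [hA1 i hi F hF hiF, h, add_zero] at h1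
    exact X_pow_ne i (N i) h1.symm
  have hedge : ∀ i j, {i, j} ∈ Δ → coeff (Finsupp.single j (N j)) (G j) = 0 →
      coeff (Finsupp.single i (N i)) (G i) = 0 := by
    intro i j hF hj
    by_contra hi
    rcases zero_top hg (hG i) (hG' j) (hw i) (hw' j) (hGG i j) hF with h | h
    · exact hB1 i hi _ hF (by simp) h
    · exact hB0 j hj _ hF (by simp) h
  have hP := hconn (fun i => coeff (Finsupp.single i (N i)) (G i) = 0) (fun i j hij =>
    ⟨hedge j i (by rwa [Finset.pair_comm] at hij), hedge i j hij⟩)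
  obtain ⟨i0⟩ := ‹Nonempty ι›
  by_cases hi0 : coeff (Finsupp.single i0 (N i0)) (G i0) = 0
  · right
    refine eq_zero_of_kill hg N G' hG' hw' (fun i => hB0 i ((hP i0 i).1 hi0)) hM' hZ' fun i => ?_
    exact hB i _ _ hZ' (by rw [mul_comm, h0])
  · left
    refine eq_zero_of_kill hg N G hG hw (fun i => hB1 i fun h => hi0 ((hP i0 i).2 h)) hM hZ
      fun i => ?_
    rw [mul_comm, hGZ i]

end ring

attribute [local instance] MvPolynomial.gradedAlgebra

/-- Smooth charts and a connected complex give a domain. -/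
theorem dom : S_SMI → S_DOM := by
  intro hS k A ι _ _ _ _ _ _ _ x w Δ hx hg hs hconn
  classical
  have hsurj : ∀ a : A, ∃ G : MvPolynomial ι k, aeval x G = a := by
    intro a
    have h1 : a ∈ Algebra.adjoin k (Set.range x) := by
      rw [hx.gen]
      exact Algebra.mem_top
    rw [Algebra.adjoin_range_eq_range_aeval] at h1
    exact h1
  have hne : Nontrivial A := by
    obtain ⟨i0⟩ := ‹Nonempty ι›
    have h1 := (hg.indep 0).ne_zero
      ⟨(0 : ι → ℕ), by simp [deg], hg.down _ (hg.sing i0) _ (by simp [supp])⟩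
    exact ⟨⟨_, 0, h1⟩⟩
  have hI : (RingHom.ker (aeval x : MvPolynomial ι k →ₐ[k] A)).IsPrime := by
    refine Ideal.IsHomogeneous.isPrime_of_homogeneous_mem_or_mem
      (𝒜 := homogeneousSubmodule ι k) ?_ ?_ ?_
    · intro d r hr
      have h1 : ((DirectSum.decompose (homogeneousSubmodule ι k) r) d : MvPolynomial ι k) =
          homogeneousComponent d r := decomposition.decompose'_apply r d
      rw [h1]
      exact hx.hom r hr d
    · rw [Ideal.ne_top_iff_one]
      intro h1
      rw [RingHom.mem_ker, map_one] at h1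
      exact one_ne_zero h1
    · rintro Z Z' ⟨M, hZ⟩ ⟨M', hZ'⟩ h
      exact hom_domain hS hx hs hg hconn hZ hZ' h
  have hnzd : NoZeroDivisors A := by
    refine ⟨fun {a b} hab => ?_⟩
    obtain ⟨G, rfl⟩ := hsurj a
    obtain ⟨H, rfl⟩ := hsurj b
    rw [← map_mul] at hab
    exact hI.mem_or_mem hab
  exact NoZeroDivisors.to_isDomain A

end Pool.Agent.Y758.GS
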